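import Pool.Agent.W292.NR.Stm

set_option autoImplicit false

/-! NR-CNT: the counter. -/

namespace Pool.Agent.W135.NR

open Finset Pool.Agent.W292.NR

/-- number of elements below `n` -/
def lo (E : Finset ℕ) (n : ℕ) : ℕ := (E.filter (fun j => j < n)).card

/-- number of elements in the block `b` -/
def blk (K : ℕ) (E : Finset ℕ) (b : ℕ) : ℕ :=
  (E.filter (fun j => K * b ≤ j ∧ j < K * (b + 1))).card

/-- the potential -/
def Fc (K W : ℕ) (E : Finset ℕ) : ℕ → ℕ
  | 0 => 0
  | b + 1 => if lo E (K * (b + 1)) < W then 0
      else if W ≤ blk K E b then Fc K W E b + 2 ^ b else max 1 (Fc K W E b)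

lemma lo_mono (E : Finset ℕ) {m n : ℕ} (h : m ≤ n) : lo E m ≤ lo E n := by
  unfold lo
  apply card_le_card
  intro j hj
  rw [mem_filter] at hj ⊢
  exact ⟨hj.1, by omega⟩

lemma blk_le_lo (K : ℕ) (E : Finset ℕ) {b n : ℕ} (h : K * (b + 1) ≤ n) : blk K E b ≤ lo E n := by
  unfold lo blk
  apply card_le_card
  intro j hj
  rw [mem_filter] at hj ⊢
  exact ⟨hj.1, by omega⟩

lemma one_le {K W : ℕ} {E : Finset ℕ} {b : ℕ} (h : 1 ≤ Fc K W E b) : W ≤ lo E (K * b) := by
  cases b with
  | zero => simp [Fc] at h
  | succ b =>
    unfold Fc at h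
    split_ifs at h with h1
    · omega
    · omega
    · omega

lemma full {K W : ℕ} {E : Finset ℕ} (b : ℕ) (h : ∀ b' < b, W ≤ blk K E b') :
    2 ^ b ≤ Fc K W E b + 1 := by
  induction b with
  | zero => simp [Fc]
  | succ b ih =>
    have h1 := ih fun b' hb' => h b' (by omega)
    have h2 := h b (by omega)
    have h3 := blk_le_lo K E (b := b) (n := K * (b + 1)) le_rfl
    unfold Fc
    rw [if_neg (by omega), if_pos h2, pow_succ]
    omega

lemma toggled {K W : ℕ} (hK : K = 2 * W - 1) (hW : 1 ≤ W) {E E' : Finset ℕ} {i : ℕ}
    (hi : lo E i < W) (h1 : ∀ j, j ≤ i → (j ∈ E' ↔ j ∉ E)) {b : ℕ} (hb : K * (b + 1) ≤ i) :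
    W ≤ blk K E' b := by
  have e1 : blk K E b ≤ lo E i := blk_le_lo K E hb
  have e2 : blk K E b + blk K E' b = K := by
    unfold blk
    rw [← card_union_of_disjoint]
    · have : E.filter (fun j => K * b ≤ j ∧ j < K * (b + 1)) ∪
          E'.filter (fun j => K * b ≤ j ∧ j < K * (b + 1)) = Ico (K * b) (K * (b + 1)) := by
        ext j
        simp only [mem_union, mem_filter, mem_Ico]
        constructor
        · rintro (h | h) <;> exact h.2
        · intro h
          by_cases hj : j ∈ E
          · exact Or.inl ⟨hj, h⟩
          · exact Or.inr ⟨(h1 j (by omega)).2 hj, h⟩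
      rw [this, Nat.card_Ico, mul_add]
      omega
    · rw [disjoint_left]
      intro j hj hj'
      rw [mem_filter] at hj hj'
      exact (h1 j (by omega)).1 hj'.1 hj.1
  omega

lemma step {K W : ℕ} (hK : K = 2 * W - 1) (hW : 1 ≤ W) {E E' : Finset ℕ} {i : ℕ}
    (hi : lo E i < W) (h1 : ∀ j, j ≤ i → (j ∈ E' ↔ j ∉ E))
    (h2 : ∀ j, i < j → (j ∈ E' ↔ j ∈ E)) (b : ℕ) : Fc K W E b ≤ Fc K W E' b + 1 := by
  induction b with
  | zero => simp [Fc]
  | succ b ih =>
    rcases le_or_gt (K * (b + 1)) i with c1 | c1
    · have : lo E (K * (b + 1)) < W := (lo_mono E c1).trans_lt hi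
      unfold Fc
      rw [if_pos this]
      omega
    · rcases le_or_gt (K * b) i with c2 | c2
      · have e1 : lo E (K * b) < W := (lo_mono E c2).trans_lt hi
        have e2 : Fc K W E b = 0 := by
          by_contra hne
          have := one_le (K := K) (W := W) (E := E) (b := b) (by omega)
          omega
        have hpow : 1 ≤ 2 ^ b := Nat.one_le_two_pow
        have e3 : Fc K W E (b + 1) ≤ 2 ^ b := by
          unfold Fc
          rw [e2]
          split_ifs <;> omega
        have e4 : 2 ^ b ≤ Fc K W E' b + 1 := full b fun b' hb' =>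
          toggled hK hW hi h1 ((Nat.mul_le_mul_left K (by omega : b' + 1 ≤ b)).trans c2)
        rcases Nat.eq_zero_or_pos b with hb | hb
        · subst hb
          simp only [pow_zero] at e3
          omega
        · have e5 : W ≤ lo E' (K * (b + 1)) := by
            have k1 : W ≤ blk K E' 0 := toggled hK hW hi h1
              ((Nat.mul_le_mul_left K (by omega : 0 + 1 ≤ b)).trans c2)
            have k2 := blk_le_lo K E' (b := 0) (n := K * (b + 1))
              (Nat.mul_le_mul_left K (by omega))
            omega
          have e6 : Fc K W E' b ≤ Fc K W E' (b + 1) := by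
            conv_rhs => unfold Fc
            rw [if_neg (by omega)]
            split_ifs
            · omega
            · exact le_max_right _ _
          omega
      · have e1 : blk K E' b = blk K E b := by
          unfold blk
          congr 1
          ext j
          simp only [mem_filter]
          constructor
          · rintro ⟨h3, h4⟩
            exact ⟨(h2 j (by omega)).1 h3, h4⟩
          · rintro ⟨h3, h4⟩
            exact ⟨(h2 j (by omega)).2 h3, h4⟩
        have e2 := blk_le_lo K E' (b := b) (n := K * (b + 1)) le_rfl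
        by_cases c3 : lo E (K * (b + 1)) < W
        · conv_lhs => unfold Fc
          rw [if_pos c3]
          omega
        · by_cases c4 : W ≤ blk K E b
          · unfold Fc
            rw [if_neg c3, if_pos c4, if_neg (by omega), if_pos (by omega)]
            omega
          · by_cases c5 : lo E' (K * (b + 1)) < W
            · have e3 : Fc K W E' b = 0 := by
                by_contra hne
                have k1 := one_le (K := K) (W := W) (E := E') (b := b) (by omega)
                have k2 := lo_mono E' (Nat.mul_le_mul_left K (by omega : b ≤ b + 1))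
                omega
              unfold Fc
              rw [if_neg c3, if_neg c4, if_pos c5]
              omega
            · unfold Fc
              rw [if_neg c3, if_neg c4, if_neg c5, if_neg (by omega)]
              omega

theorem proof_cnt : S_CNT := by
  intro W B hW
  refine ⟨fun E => Fc (2 * W - 1) W E B, ?_, ?_, ?_⟩
  · refine full B fun b' hb' => ?_
    have : (range ((2 * W - 1) * B)).filter
        (fun j => (2 * W - 1) * b' ≤ j ∧ j < (2 * W - 1) * (b' + 1)) =
        Ico ((2 * W - 1) * b') ((2 * W - 1) * (b' + 1)) := by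
      ext j
      simp only [mem_filter, mem_range, mem_Ico]
      constructor
      · exact fun h => h.2
      · intro h
        exact ⟨h.2.trans_le (Nat.mul_le_mul_left _ (by omega)), h⟩
    unfold blk
    rw [this, Nat.card_Ico, mul_add]
    omega
  · intro E _ hE
    exact (one_le hE).trans (card_filter_le _ _)
  · intro E E' i _ _ _ hi h1 h2
    exact step rfl hW hi h1 h2 B

end Pool.Agent.W135.NR
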